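import Mathlib

set_option autoImplicit false

open Filter Topology

namespace Pool.Agent.Results.MP_b13893_an.RadiusBound

/-- The `q`-integer `[n]_q = (1 - q ^ n) / (1 - q)`, a rational function of `q`. -/
noncomputable def qInt (n : ℕ) : RatFunc ℚ := (1 - RatFunc.X ^ n) / (1 - RatFunc.X)

/-- `trunc n c` is the real number `[[c 0, c 1, ..., c n]]`, a truncated negative continued
fraction. -/
noncomputable def trunc : ℕ → (ℕ → ℕ) → ℝ
  | 0, c => c 0
  | n + 1, c => c 0 - 1 / trunc n (fun j => c (j + 1))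

/-- `qTrunc n c` is the rational function `[[c 0, c 1, ..., c n]]_q`. -/
noncomputable def qTrunc : ℕ → (ℕ → ℕ) → RatFunc ℚ
  | 0, c => qInt (c 0)
  | n + 1, c => qInt (c 0) - RatFunc.X ^ (c 0 - 1) / qTrunc n (fun j => c (j + 1))

/-- The rational functions `F n`, expanded at `q = 0`, converge `q`-adically to the Laurent
series `L`. -/
def QAdicTendsto (F : ℕ → RatFunc ℚ) (L : LaurentSeries ℚ) : Prop :=
  ∀ K : ℤ, ∀ᶠ n in atTop, ∀ k < K, ((F n : LaurentSeries ℚ)).coeff k = L.coeff k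

/-- `Q` is the `q`-deformation `x ↦ [x]_q` of the real numbers. -/
structure IsQDeformation (Q : ℝ → LaurentSeries ℚ) : Prop where
  /-- If `x = [[c 0, c 1, ...]]` with all `c j ≥ 2`, then `[x]_q` is the `q`-adic limit of
  `[[c 0, ..., c n]]_q`. -/
  limit : ∀ (x : ℝ) (c : ℕ → ℕ), (∀ j, 2 ≤ c j) → Tendsto (fun n => trunc n c) atTop (𝓝 x) →
    QAdicTendsto (fun n => qTrunc n c) (Q x)
  /-- `[x - 1]_q = q⁻¹ ([x]_q - 1)` for all real `x`. -/
  shift : ∀ x : ℝ, Q (x - 1) = (HahnSeries.single (1 : ℤ) (1 : ℚ) : LaurentSeries ℚ)⁻¹ * (Q x - 1)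

/-- The radius of convergence of a Laurent series (the finite principal part is ignored). -/
noncomputable def radius (L : LaurentSeries ℚ) : ENNReal :=
  (FormalMultilinearSeries.ofScalars ℂ (fun n : ℕ => ((L.coeff (n : ℤ) : ℚ) : ℂ))).radius

/-! ### Power series of the truncations -/

/-- `1 + X + ... + X^(n-1)`. -/
noncomputable def pInt (n : ℕ) : PowerSeries ℚ := ∑ i ∈ Finset.range n, PowerSeries.X ^ i

/-- The power series expansion of `qTrunc`. -/
noncomputable def P : ℕ → (ℕ → ℕ) → PowerSeries ℚ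
  | 0, c => pInt (c 0)
  | n + 1, c => pInt (c 0) - PowerSeries.X ^ (c 0 - 1) * (P n (fun j => c (j + 1)))⁻¹

lemma pInt_succ (n : ℕ) : pInt (n + 1) = 1 + PowerSeries.X * pInt n := by
  simp only [pInt, Finset.sum_range_succ', Finset.mul_sum, pow_zero, pow_succ']
  rw [add_comm]

lemma constCoeff_pInt {n : ℕ} (hn : 1 ≤ n) : PowerSeries.constantCoeff (pInt n) = 1 := by
  obtain ⟨m, rfl⟩ : ∃ m, n = m + 1 := ⟨n - 1, by omega⟩
  rw [pInt_succ]; simp

lemma constCoeff_P : ∀ (n : ℕ) (c : ℕ → ℕ), (∀ j, 2 ≤ c j) →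
    PowerSeries.constantCoeff (P n c) = 1
  | 0, c, hc => by
    rw [P]; exact constCoeff_pInt (by have := hc 0; omega)
  | n + 1, c, hc => by
    rw [P, map_sub, map_mul, map_pow, PowerSeries.constantCoeff_X,
      constCoeff_pInt (by have := hc 0; omega), zero_pow (by have := hc 0; omega)]
    simp

lemma P_ne {n : ℕ} {c : ℕ → ℕ} (hc : ∀ j, 2 ≤ c j) :
    PowerSeries.constantCoeff (P n c) ≠ 0 := by
  rw [constCoeff_P n c hc]; exact one_ne_zero

lemma one_sub_X_ne : (1 - RatFunc.X : RatFunc ℚ) ≠ 0 := by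
  intro h
  have h1 : (RatFunc.X : RatFunc ℚ) = 1 := (sub_eq_zero.1 h).symm
  rw [← RatFunc.algebraMap_X, ← map_one (algebraMap (Polynomial ℚ) (RatFunc ℚ))] at h1
  have h2 := RatFunc.algebraMap_injective ℚ h1
  have h3 := congrArg (Polynomial.eval 0) h2
  simp at h3

lemma coe_qInt (n : ℕ) : ((qInt n : RatFunc ℚ) : LaurentSeries ℚ) = (pInt n : LaurentSeries ℚ) := by
  have h1 : qInt n = ∑ i ∈ Finset.range n, (RatFunc.X : RatFunc ℚ) ^ i := by
    rw [qInt, div_eq_iff one_sub_X_ne]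
    have := geom_sum_mul (RatFunc.X : RatFunc ℚ) n
    linear_combination this
  rw [h1, pInt]
  simp only [map_sum, map_pow]
  refine Finset.sum_congr rfl fun i _ => ?_
  rw [RatFunc.coe_X, PowerSeries.coe_X]

lemma coe_P_inv {A : PowerSeries ℚ} (hA : PowerSeries.constantCoeff A ≠ 0) :
    ((A⁻¹ : PowerSeries ℚ) : LaurentSeries ℚ) = (A : LaurentSeries ℚ)⁻¹ := by
  refine eq_inv_of_mul_eq_one_left ?_
  rw [← PowerSeries.coe_mul, PowerSeries.inv_mul_cancel A hA, PowerSeries.coe_one]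

lemma coe_qTrunc : ∀ (n : ℕ) (c : ℕ → ℕ), (∀ j, 2 ≤ c j) →
    ((qTrunc n c : RatFunc ℚ) : LaurentSeries ℚ) = (P n c : LaurentSeries ℚ)
  | 0, c, hc => by rw [qTrunc, P, coe_qInt]
  | n + 1, c, hc => by
    have ih := coe_qTrunc n (fun j => c (j + 1)) (fun j => hc (j + 1))
    rw [qTrunc, P, map_sub, map_div₀, map_pow, RatFunc.coe_X, ih, coe_qInt, PowerSeries.coe_sub,
      PowerSeries.coe_mul, PowerSeries.coe_pow, coe_P_inv (P_ne fun j => hc (j + 1)),
      div_eq_mul_inv]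
    congr 3
    exact PowerSeries.coe_X.symm

/-- Stabilisation of the coefficients. -/
lemma P_dvd : ∀ (n : ℕ) (c : ℕ → ℕ), (∀ j, 2 ≤ c j) →
    (PowerSeries.X ^ (n + 1) : PowerSeries ℚ) ∣ P (n + 1) c - P n c
  | 0, c, hc => by
    rw [P, P, sub_sub_cancel_left, pow_one]
    obtain ⟨m, hm⟩ : ∃ m, c 0 - 1 = m + 1 := ⟨c 0 - 2, by have := hc 0; omega⟩
    rw [hm, pow_succ']
    exact ((dvd_mul_right _ _).mul_right _).neg_right
  | n + 1, c, hc => by
    have hc' : ∀ j, 2 ≤ c (j + 1) := fun j => hc (j + 1)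
    obtain ⟨D, hD⟩ := P_dvd n (fun j => c (j + 1)) hc'
    obtain ⟨m, hm⟩ : ∃ m, c 0 - 1 = m + 1 := ⟨c 0 - 2, by have := hc 0; omega⟩
    set A := P (n + 1) (fun j => c (j + 1)) with hA
    set B := P n (fun j => c (j + 1)) with hB
    have hA0 : PowerSeries.constantCoeff A ≠ 0 := P_ne hc'
    have hB0 : PowerSeries.constantCoeff B ≠ 0 := P_ne hc'
    have h1 : P (n + 2) c - P (n + 1) c =
        PowerSeries.X ^ (c 0 - 1) * (A⁻¹ * B⁻¹ * (A - B)) := by
      rw [show P (n + 2) c = pInt (c 0) - PowerSeries.X ^ (c 0 - 1) * A⁻¹ by rw [P],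
        show P (n + 1) c = pInt (c 0) - PowerSeries.X ^ (c 0 - 1) * B⁻¹ by rw [P]]
      have e1 : A⁻¹ * A = 1 := PowerSeries.inv_mul_cancel A hA0
      have e2 : B⁻¹ * B = 1 := PowerSeries.inv_mul_cancel B hB0
      linear_combination (-PowerSeries.X ^ (c 0 - 1) * B⁻¹) * e1 +
        PowerSeries.X ^ (c 0 - 1) * A⁻¹ * e2
    rw [h1, hD, hm]
    refine ⟨PowerSeries.X ^ m * (A⁻¹ * B⁻¹ * D), ?_⟩
    ring

lemma coeff_stable {c : ℕ → ℕ} (hc : ∀ j, 2 ≤ c j) {k n : ℕ} (hkn : k ≤ n) :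
    PowerSeries.coeff k (P n c) = PowerSeries.coeff k (P k c) := by
  induction n, hkn using Nat.le_induction with
  | base => rfl
  | succ n hn ih =>
    rw [← ih, ← sub_eq_zero, ← map_sub]
    obtain ⟨D, hD⟩ := P_dvd n c hc
    rw [hD, PowerSeries.coeff_X_pow_mul', if_neg (by omega)]

/-- The limit power series. -/
noncomputable def lim (c : ℕ → ℕ) : PowerSeries ℚ :=
  PowerSeries.mk fun k => PowerSeries.coeff k (P k c)

lemma tendsto_lim {c : ℕ → ℕ} (hc : ∀ j, 2 ≤ c j) :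
    QAdicTendsto (fun n => qTrunc n c) (lim c : LaurentSeries ℚ) := by
  intro K
  filter_upwards [eventually_ge_atTop K.toNat] with n hn k hk
  rw [coe_qTrunc n c hc, PowerSeries.coeff_coe, PowerSeries.coeff_coe]
  split_ifs with h
  · rfl
  · rw [lim, PowerSeries.coeff_mk]
    exact coeff_stable hc (by omega)

lemma QAdicTendsto.unique {F : ℕ → RatFunc ℚ} {L L' : LaurentSeries ℚ} (h : QAdicTendsto F L)
    (h' : QAdicTendsto F L') : L = L' := by
  ext k
  obtain ⟨n, hn, hn'⟩ := ((h (k + 1)).and (h' (k + 1))).exists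
  rw [← hn k (by omega), hn' k (by omega)]

/-! ### Digits -/

/-- The Gauss-type map of the negative continued fraction. -/
noncomputable def G (x : ℝ) : ℝ := 1 / (⌊x⌋₊ + 1 - x)

/-- The digits of `x ≥ 1`. -/
noncomputable def dig (x : ℝ) (n : ℕ) : ℕ := ⌊G^[n] x⌋₊ + 1

lemma one_le_G {x : ℝ} (hx : 1 ≤ x) : 1 ≤ G x := by
  have h1 := Nat.floor_le (by linarith : 0 ≤ x)
  have h2 := Nat.lt_floor_add_one x
  rw [G, le_div_iff₀ (by linarith)]
  linarith

lemma one_le_iter {x : ℝ} (hx : 1 ≤ x) (n : ℕ) : 1 ≤ G^[n] x := by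
  induction n with
  | zero => simpa using hx
  | succ n ih => rw [Function.iterate_succ_apply']; exact one_le_G ih

lemma two_le_dig {x : ℝ} (hx : 1 ≤ x) (n : ℕ) : 2 ≤ dig x n := by
  have h : 1 ≤ ⌊G^[n] x⌋₊ := Nat.le_floor (by simpa using one_le_iter hx n)
  rw [dig]; omega

lemma dig_succ (x : ℝ) (n : ℕ) : dig x (n + 1) = dig (G x) n := by
  rw [dig, dig, Function.iterate_succ_apply]

lemma trunc_dig : ∀ (n : ℕ) (x : ℝ), 1 ≤ x →
    0 ≤ trunc n (dig x) - x ∧ trunc n (dig x) - x ≤ 1 / (n + 1)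
  | 0, x, hx => by
    have h1 := Nat.floor_le (by linarith : 0 ≤ x)
    have h2 := Nat.lt_floor_add_one x
    simp only [trunc, dig, Function.iterate_zero, id, Nat.cast_add, Nat.cast_one, Nat.cast_zero]
    constructor
    · linarith
    · norm_num; linarith
  | n + 1, x, hx => by
    have h1 := Nat.floor_le (by linarith : 0 ≤ x)
    have h2 := Nat.lt_floor_add_one x
    have hG := one_le_G hx
    obtain ⟨i1, i2⟩ := trunc_dig n (G x) hG
    have e0 : (fun j => dig x (j + 1)) = dig (G x) := funext fun j => dig_succ x j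
    set t := trunc n (dig (G x)) with ht
    have e1 : trunc (n + 1) (dig x) = ⌊x⌋₊ + 1 - 1 / t := by
      rw [trunc, e0, ← ht]; simp [dig]
    have e2 : x = ⌊x⌋₊ + 1 - 1 / G x := by
      rw [G]; field_simp; ring
    have e3 : trunc (n + 1) (dig x) - x = (t - G x) / (G x * t) := by
      rw [e1]
      nth_rewrite 2 [e2]
      have : G x ≠ 0 := by positivity
      have : t ≠ 0 := by linarith
      field_simp
      ring
    rw [e3]
    have hGt : 0 < G x * t := by nlinarith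
    refine ⟨div_nonneg i1 hGt.le, ?_⟩
    have hn : (0:ℝ) < n + 1 := by positivity
    rw [div_le_div_iff₀ hGt (by positivity)]
    rw [le_div_iff₀ hn] at i2
    push_cast
    have h3 : t - G x ≤ t - 1 := by linarith
    nlinarith [mul_nonneg i1 (by linarith : (0:ℝ) ≤ G x - 1), mul_nonneg i1 i1]

lemma tendsto_dig {x : ℝ} (hx : 1 ≤ x) : Tendsto (fun n => trunc n (dig x)) atTop (𝓝 x) := by
  have h : Tendsto (fun n => trunc n (dig x) - x) atTop (𝓝 0) :=
    squeeze_zero (fun n => (trunc_dig n x hx).1) (fun n => (trunc_dig n x hx).2)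
      tendsto_one_div_add_atTop_nhds_zero_nat
  simpa using h.add_const x

lemma one_lt_trunc : ∀ (n : ℕ) (c : ℕ → ℕ), (∀ j, 2 ≤ c j) → 1 < trunc n c
  | 0, c, hc => by
    have : (2:ℝ) ≤ c 0 := by exact_mod_cast hc 0
    rw [trunc]; linarith
  | n + 1, c, hc => by
    have h0 : (2:ℝ) ≤ c 0 := by exact_mod_cast hc 0
    have ih := one_lt_trunc n (fun j => c (j + 1)) (fun j => hc (j + 1))
    have h1 : 1 / trunc n (fun j => c (j + 1)) < 1 := by
      rw [div_lt_one (by linarith)]; exact ih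
    rw [trunc]; linarith

lemma trunc_anti : ∀ (n : ℕ) (c : ℕ → ℕ), (∀ j, 2 ≤ c j) → trunc (n + 1) c ≤ trunc n c
  | 0, c, hc => by
    have h1 : (0:ℝ) ≤ 1 / trunc 0 (fun j => c (j + 1)) := by
      have := one_lt_trunc 0 (fun j => c (j + 1)) (fun j => hc (j + 1))
      positivity
    rw [show trunc (0 + 1) c = c 0 - 1 / trunc 0 (fun j => c (j + 1)) from rfl,
      show trunc 0 c = c 0 from rfl]
    linarith
  | n + 1, c, hc => by
    have ih := trunc_anti n (fun j => c (j + 1)) (fun j => hc (j + 1))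
    have h1 := one_lt_trunc (n + 1) (fun j => c (j + 1)) (fun j => hc (j + 1))
    have h2 : 1 / trunc n (fun j => c (j + 1)) ≤ 1 / trunc (n + 1) (fun j => c (j + 1)) :=
      one_div_le_one_div_of_le (by linarith) ih
    rw [show trunc (n + 2) c = c 0 - 1 / trunc (n + 1) (fun j => c (j + 1)) from rfl,
      show trunc (n + 1) c = c 0 - 1 / trunc n (fun j => c (j + 1)) from rfl]
    linarith

/-- First step of the uniqueness of digits. -/
lemma digit_step {x : ℝ} {c : ℕ → ℕ} (hc : ∀ j, 2 ≤ c j)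
    (h : Tendsto (fun n => trunc n c) atTop (𝓝 x)) :
    1 ≤ x ∧ c 0 = ⌊x⌋₊ + 1 ∧ Tendsto (fun n => trunc n (fun j => c (j + 1))) atTop (𝓝 (G x)) := by
  have hx1 : 1 ≤ x := ge_of_tendsto' h fun n => (one_lt_trunc n c hc).le
  have hanti : Antitone (fun n => trunc n c) := antitone_nat_of_succ_le fun n => trunc_anti n c hc
  have hup : x < c 0 := by
    have h1 : x ≤ trunc 1 c := hanti.le_of_tendsto h 1
    have h2 := one_lt_trunc 0 (fun j => c (j + 1)) (fun j => hc (j + 1))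
    have h3 : 0 < 1 / trunc 0 (fun j => c (j + 1)) := by positivity
    rw [trunc] at h1
    linarith
  have hlow : (c 0 : ℝ) - 1 ≤ x := by
    refine ge_of_tendsto (h.comp (tendsto_add_atTop_nat 1)) (Eventually.of_forall fun n => ?_)
    have h1 := one_lt_trunc n (fun j => c (j + 1)) (fun j => hc (j + 1))
    have h2 : 1 / trunc n (fun j => c (j + 1)) < 1 := by
      rw [div_lt_one (by linarith)]; exact h1
    simp only [Function.comp_apply, trunc]
    linarith
  have h0 := hc 0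
  have hfl : ⌊x⌋₊ = c 0 - 1 := by
    rw [Nat.floor_eq_iff (by linarith)]
    rw [Nat.cast_sub (by omega)]
    push_cast
    constructor <;> linarith
  have hc0 : c 0 = ⌊x⌋₊ + 1 := by omega
  refine ⟨hx1, hc0, ?_⟩
  have h4 : Tendsto (fun n => 1 / ((c 0 : ℝ) - trunc (n + 1) c)) atTop (𝓝 (1 / ((c 0 : ℝ) - x))) := by
    refine Tendsto.div tendsto_const_nhds ?_ (by linarith)
    exact tendsto_const_nhds.sub (h.comp (tendsto_add_atTop_nat 1))
  have h5 : G x = 1 / ((c 0 : ℝ) - x) := by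
    rw [G, hc0]; push_cast; rfl
  rw [h5]
  refine h4.congr fun n => ?_
  rw [trunc, sub_sub_cancel, one_div_one_div]

lemma digit_unique : ∀ (n : ℕ) (x : ℝ) (c : ℕ → ℕ), (∀ j, 2 ≤ c j) →
    Tendsto (fun n => trunc n c) atTop (𝓝 x) → c n = dig x n
  | 0, x, c, hc, h => by
    rw [dig]; exact (digit_step hc h).2.1
  | n + 1, x, c, hc, h => by
    have := digit_unique n (G x) (fun j => c (j + 1)) (fun j => hc (j + 1)) (digit_step hc h).2.2
    rw [dig_succ]; exact this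

lemma eq_dig {x : ℝ} {c : ℕ → ℕ} (hc : ∀ j, 2 ≤ c j)
    (h : Tendsto (fun n => trunc n c) atTop (𝓝 x)) : c = dig x :=
  funext fun n => digit_unique n x c hc h

/-! ### The shift -/

lemma G_sub_one {x : ℝ} (hx : 2 ≤ x) : G (x - 1) = G x := by
  have h1 : ⌊x - 1⌋₊ = ⌊x⌋₊ - 1 := by
    have := Nat.floor_sub_one x
    exact this
  have h2 : 1 ≤ ⌊x⌋₊ := Nat.le_floor (by push_cast; linarith)
  rw [G, G, h1, Nat.cast_sub h2]
  push_cast
  ring_nf

lemma dig_sub_one_zero {x : ℝ} (hx : 2 ≤ x) : dig x 0 = dig (x - 1) 0 + 1 := by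
  have h1 : ⌊x - 1⌋₊ = ⌊x⌋₊ - 1 := Nat.floor_sub_one x
  have h2 : 1 ≤ ⌊x⌋₊ := Nat.le_floor (by push_cast; linarith)
  simp only [dig, Function.iterate_zero, id, h1]
  omega

lemma dig_sub_one_succ {x : ℝ} (hx : 2 ≤ x) (n : ℕ) : dig x (n + 1) = dig (x - 1) (n + 1) := by
  rw [dig_succ, dig_succ, G_sub_one hx]

lemma P_shift {c c' : ℕ → ℕ} (h0 : c 0 = c' 0 + 1) (hc' : 1 ≤ c' 0)
    (hs : ∀ n, c (n + 1) = c' (n + 1)) :
    ∀ n, P n c = 1 + PowerSeries.X * P n c'
  | 0 => by rw [P, P, h0, pInt_succ]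
  | n + 1 => by
    have e : (fun j => c (j + 1)) = (fun j => c' (j + 1)) := funext hs
    obtain ⟨m, hm⟩ : ∃ m, c' 0 = m + 1 := ⟨c' 0 - 1, by omega⟩
    rw [P, P, e, h0, pInt_succ, hm]
    simp only [Nat.add_sub_cancel]
    ring

lemma lim_shift {c c' : ℕ → ℕ} (h0 : c 0 = c' 0 + 1) (hc' : ∀ j, 2 ≤ c' j)
    (hs : ∀ n, c (n + 1) = c' (n + 1)) : lim c = 1 + PowerSeries.X * lim c' := by
  ext k
  have hP := P_shift h0 (by have := hc' 0; omega) hs
  rcases k with _ | k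
  · rw [lim, PowerSeries.coeff_mk, hP]
    simp
  · rw [lim, PowerSeries.coeff_mk, hP, map_add, map_add, PowerSeries.coeff_succ_X_mul,
      PowerSeries.coeff_succ_X_mul, lim, PowerSeries.coeff_mk]
    rw [coeff_stable hc' (Nat.le_succ k)]

/-- The operation `L ↦ q⁻¹ (L - 1)`. -/
noncomputable def sh (L : LaurentSeries ℚ) : LaurentSeries ℚ :=
  (HahnSeries.single (1 : ℤ) (1 : ℚ) : LaurentSeries ℚ)⁻¹ * (L - 1)

lemma sh_one_add (A : PowerSeries ℚ) :
    sh ((1 + PowerSeries.X * A : PowerSeries ℚ) : LaurentSeries ℚ) = (A : LaurentSeries ℚ) := by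
  rw [sh, PowerSeries.coe_add, PowerSeries.coe_one, add_sub_cancel_left, PowerSeries.coe_mul,
    PowerSeries.coe_X, ← mul_assoc, inv_mul_cancel₀, one_mul]
  exact HahnSeries.single_ne_zero one_ne_zero

/-- The number of unit shifts needed to reach `[1, ∞)`. -/
noncomputable def mm (x : ℝ) : ℕ := (1 - ⌊x⌋).toNat

/-- The `q`-deformation. -/
noncomputable def Q (x : ℝ) : LaurentSeries ℚ :=
  sh^[mm x] ((lim (dig (x + mm x)) : PowerSeries ℚ) : LaurentSeries ℚ)

lemma one_le_add_mm (x : ℝ) : 1 ≤ x + mm x := by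
  have h1 := Int.floor_le x
  have h2 : ((1 - ⌊x⌋ : ℤ) : ℝ) ≤ ((mm x : ℤ) : ℝ) := by
    exact_mod_cast Int.self_le_toNat (1 - ⌊x⌋)
  push_cast at h2
  linarith

lemma mm_eq_zero {x : ℝ} (hx : 1 ≤ x) : mm x = 0 := by
  rw [mm, Int.toNat_eq_zero]
  have : 1 ≤ ⌊x⌋ := Int.le_floor.2 (by simpa using hx)
  omega

lemma Q_of_one_le {x : ℝ} (hx : 1 ≤ x) : Q x = (lim (dig x) : LaurentSeries ℚ) := by
  rw [Q, mm_eq_zero hx]
  simp

lemma Q_shift (x : ℝ) : Q (x - 1) = sh (Q x) := by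
  rcases lt_or_ge x 2 with hx | hx
  · have h1 : ⌊x⌋ < 2 := Int.floor_lt.2 (by simpa using hx)
    have h2 : mm (x - 1) = mm x + 1 := by
      rw [mm, mm, Int.floor_sub_one]
      omega
    have h3 : x - 1 + (mm (x - 1) : ℝ) = x + mm x := by rw [h2]; push_cast; ring
    rw [Q, h3, h2, Function.iterate_succ_apply', ← Q]
  · rw [Q_of_one_le (by linarith : 1 ≤ x - 1), Q_of_one_le (by linarith : 1 ≤ x)]
    rw [lim_shift (dig_sub_one_zero hx) (two_le_dig (by linarith))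
      (dig_sub_one_succ hx), sh_one_add]

lemma isQDeformation_Q : IsQDeformation Q where
  limit x c hc h := by
    rw [Q_of_one_le (digit_step hc h).1, ← eq_dig hc h]
    exact tendsto_lim hc
  shift := Q_shift

lemma unique_Q {Q' : ℝ → LaurentSeries ℚ} (h : IsQDeformation Q') : Q' = Q := by
  have key : ∀ (m : ℕ) (x : ℝ), 1 ≤ x + m → Q' x = Q x := by
    intro m
    induction m with
    | zero =>
      intro x hx
      have hx' : 1 ≤ x := by simpa using hx
      exact (h.limit x (dig x) (two_le_dig hx') (tendsto_dig hx')).unique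
        (isQDeformation_Q.limit x (dig x) (two_le_dig hx') (tendsto_dig hx'))
    | succ m ih =>
      intro x hx
      have e : x = (x + 1) - 1 := by ring
      have h1 := ih (x + 1) (by push_cast at hx; linarith)
      rw [e, h.shift (x + 1), isQDeformation_Q.shift (x + 1), h1]
  funext x
  exact key (mm x) x (one_le_add_mm x)

/-! ### The analytic part -/

/-- Taylor series at `0`. -/
noncomputable def tay (f : ℂ → ℂ) : PowerSeries ℂ :=
  PowerSeries.mk fun n => iteratedDeriv n f 0 / n.factorial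

lemma tay_congr {f g : ℂ → ℂ} (h : f =ᶠ[𝓝 0] g) : tay f = tay g := by
  ext n
  simp only [tay, PowerSeries.coeff_mk, (h.iteratedDeriv n).eq_of_nhds]

lemma tay_mul {f g : ℂ → ℂ} (hf : AnalyticAt ℂ f 0) (hg : AnalyticAt ℂ g 0) :
    tay (f * g) = tay f * tay g := by
  ext n
  rw [PowerSeries.coeff_mul, tay, PowerSeries.coeff_mk]
  have h1 := iteratedDerivWithin_mul (n := n) (Set.mem_univ (0:ℂ)) uniqueDiffOn_univ
    hf.contDiffAt.contDiffWithinAt hg.contDiffAt.contDiffWithinAt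
  simp only [iteratedDerivWithin_univ] at h1
  rw [h1, Finset.Nat.sum_antidiagonal_eq_sum_range_succ_mk, Finset.sum_div]
  refine Finset.sum_congr rfl fun i hi => ?_
  have hi' : i ≤ n := by simpa [Nat.lt_succ_iff] using hi
  simp only [tay, PowerSeries.coeff_mk]
  have h2 := Nat.choose_mul_factorial_mul_factorial hi'
  have h3 : (n.choose i : ℂ) * i.factorial * (n - i).factorial = n.factorial := by exact_mod_cast h2
  have e1 : (i.factorial : ℂ) ≠ 0 := by exact_mod_cast i.factorial_ne_zero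
  have e2 : ((n - i).factorial : ℂ) ≠ 0 := by exact_mod_cast (n - i).factorial_ne_zero
  have e4 : (n.choose i : ℂ) ≠ 0 := by exact_mod_cast (Nat.choose_pos hi').ne'
  rw [← h3]
  field_simp

lemma tay_sub {f g : ℂ → ℂ} (hf : AnalyticAt ℂ f 0) (hg : AnalyticAt ℂ g 0) :
    tay (f - g) = tay f - tay g := by
  ext n
  simp only [tay, PowerSeries.coeff_mk, map_sub]
  rw [iteratedDeriv_sub hf.contDiffAt hg.contDiffAt, sub_div]

lemma tay_const (a : ℂ) : tay (fun _ => a) = PowerSeries.C a := by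
  ext n
  rw [tay, PowerSeries.coeff_mk, PowerSeries.coeff_C, iteratedDeriv_const]
  split_ifs with h
  · subst h; simp
  · simp

lemma tay_add {f g : ℂ → ℂ} (hf : AnalyticAt ℂ f 0) (hg : AnalyticAt ℂ g 0) :
    tay (f + g) = tay f + tay g := by
  ext n
  simp only [tay, PowerSeries.coeff_mk, map_add]
  rw [iteratedDeriv_add hf.contDiffAt hg.contDiffAt, add_div]

lemma tay_id : tay (fun z => z) = PowerSeries.X := by
  ext n
  rw [tay, PowerSeries.coeff_mk, PowerSeries.coeff_X]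
  rcases n with _ | _ | n
  · simp
  · simp
  · rw [iteratedDeriv_succ', iteratedDeriv_succ']
    simp

lemma tay_pow (m : ℕ) : tay (fun z => z ^ m) = PowerSeries.X ^ m := by
  induction m with
  | zero => simpa using tay_const 1
  | succ m ih =>
    have : (fun z : ℂ => z ^ (m + 1)) = (fun z : ℂ => z ^ m) * (fun z : ℂ => z) := by
      funext z; simp [pow_succ]
    rw [this, tay_mul (by fun_prop) (by fun_prop), ih, tay_id, pow_succ]

lemma tay_geom (m : ℕ) : tay (fun z => ∑ i ∈ Finset.range m, z ^ i) =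
    ∑ i ∈ Finset.range m, PowerSeries.X ^ i := by
  induction m with
  | zero => simpa using tay_const 0
  | succ m ih =>
    have : (fun z : ℂ => ∑ i ∈ Finset.range (m + 1), z ^ i) =
        (fun z : ℂ => ∑ i ∈ Finset.range m, z ^ i) + (fun z : ℂ => z ^ m) := by
      funext z; simp [Finset.sum_range_succ]
    rw [this, tay_add (by fun_prop) (by fun_prop), ih, tay_pow, Finset.sum_range_succ]

/-- The radius `R_*`. -/
noncomputable def R0 : ℝ := (3 - Real.sqrt 5) / 2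

/-- The radius of the invariant disc. -/
noncomputable def r0 : ℝ := (Real.sqrt 5 - 1) / 2

lemma sqrt5 : Real.sqrt 5 ^ 2 = 5 ∧ 2.2 < Real.sqrt 5 ∧ Real.sqrt 5 < 2.3 := by
  refine ⟨Real.sq_sqrt (by norm_num), ?_, ?_⟩
  · exact Real.lt_sqrt_of_sq_lt (by norm_num)
  · rw [Real.sqrt_lt' (by norm_num)]; norm_num

lemma R0_pos : 0 < R0 := by have := sqrt5.2.2; rw [R0]; linarith

lemma r0_pos : 0 < r0 := by have := sqrt5.2.1; rw [r0]; linarith

lemma r0_lt_one : r0 < 1 := by have := sqrt5.2.2; rw [r0]; linarith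

lemma R0_mul : R0 * (1 + r0) = r0 := by
  have := sqrt5.1; rw [R0, r0]; nlinarith

lemma R0_add : 1 - r0 = R0 := by rw [R0, r0]; ring

/-- The disc `|w - 1| ≤ r0` is invariant under `w ↦ 1 + z w` for `|z| ≤ R0`. -/
lemma inv1 {z w : ℂ} (hz : ‖z‖ ≤ R0) (hw : ‖w - 1‖ ≤ r0) : ‖(1 + z * w) - 1‖ ≤ r0 := by
  have h1 : ‖w‖ ≤ 1 + r0 := by
    calc ‖w‖ = ‖(w - 1) + 1‖ := by ring_nf
      _ ≤ ‖w - 1‖ + ‖(1:ℂ)‖ := norm_add_le _ _
      _ ≤ 1 + r0 := by rw [norm_one]; linarith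
  rw [add_sub_cancel_left, norm_mul]
  calc ‖z‖ * ‖w‖ ≤ R0 * (1 + r0) := mul_le_mul hz h1 (norm_nonneg _) R0_pos.le
    _ = r0 := R0_mul

lemma norm_lower {w : ℂ} (hw : ‖w - 1‖ ≤ r0) : R0 ≤ ‖w‖ := by
  have h1 : ‖(1:ℂ)‖ ≤ ‖w‖ + ‖w - 1‖ := by
    calc ‖(1:ℂ)‖ = ‖w - (w - 1)‖ := by ring_nf
      _ ≤ ‖w‖ + ‖w - 1‖ := norm_sub_le _ _
  rw [norm_one] at h1
  rw [← R0_add]; linarith

lemma ne_zero_of_mem {w : ℂ} (hw : ‖w - 1‖ ≤ r0) : w ≠ 0 := by
  intro h
  have := norm_lower hw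
  rw [h, norm_zero] at this
  linarith [R0_pos]

/-- The disc `|w - 1| ≤ r0` is invariant under `w ↦ 1 + z - z / w` for `|z| ≤ R0`. -/
lemma inv2 {z w : ℂ} (hz : ‖z‖ ≤ R0) (hw : ‖w - 1‖ ≤ r0) : ‖(1 + z - z / w) - 1‖ ≤ r0 := by
  have h0 := ne_zero_of_mem hw
  have h1 : (1 + z - z / w) - 1 = z * ((w - 1) / w) := by field_simp; ring
  rw [h1, norm_mul, norm_div]
  have h2 : ‖w - 1‖ / ‖w‖ ≤ r0 / R0 :=
    div_le_div₀ r0_pos.le hw R0_pos (norm_lower hw)
  calc ‖z‖ * (‖w - 1‖ / ‖w‖) ≤ R0 * (r0 / R0) :=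
        mul_le_mul hz h2 (by positivity) R0_pos.le
    _ = r0 := by have := R0_pos; field_simp

/-- `[m+2]_z - z^(m+1)/w` is in the disc. -/
lemma inv3 {z w : ℂ} (hz : ‖z‖ ≤ R0) (hw : ‖w - 1‖ ≤ r0) (m : ℕ) :
    ‖(∑ i ∈ Finset.range (m + 2), z ^ i - z ^ (m + 1) / w) - 1‖ ≤ r0 := by
  induction m with
  | zero =>
    have := inv2 hz hw
    simpa [Finset.sum_range_succ] using this
  | succ m ih =>
    have h := inv1 hz ih
    have e : (∑ i ∈ Finset.range (m + 1 + 2), z ^ i - z ^ (m + 1 + 1) / w) =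
        1 + z * (∑ i ∈ Finset.range (m + 2), z ^ i - z ^ (m + 1) / w) := by
      rw [Finset.sum_range_succ', mul_sub, Finset.mul_sum]
      simp only [pow_succ', pow_zero]
      ring
    rw [e]; exact h

lemma inv4 {z : ℂ} (hz : ‖z‖ ≤ R0) (m : ℕ) :
    ‖(∑ i ∈ Finset.range (m + 1), z ^ i) - 1‖ ≤ r0 := by
  induction m with
  | zero => simpa using r0_pos.le
  | succ m ih =>
    have h := inv1 hz ih
    have e : (∑ i ∈ Finset.range (m + 1 + 1), z ^ i) =
        1 + z * (∑ i ∈ Finset.range (m + 1), z ^ i) := by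
      rw [Finset.sum_range_succ', Finset.mul_sum]
      simp only [pow_succ', pow_zero]
      ring
    rw [e]; exact h

/-- Base change of `pInt`. -/
lemma map_pInt (m : ℕ) : PowerSeries.map (algebraMap ℚ ℂ) (pInt m) =
    ∑ i ∈ Finset.range m, PowerSeries.X ^ i := by
  rw [pInt, map_sum]
  simp

/-- The analytic realisation of the truncations. -/
lemma exists_analytic : ∀ (n : ℕ) (c : ℕ → ℕ), (∀ j, 2 ≤ c j) →
    ∃ f : ℂ → ℂ, AnalyticOnNhd ℂ f (Metric.ball 0 R0) ∧ (∀ z ∈ Metric.ball (0:ℂ) R0, ‖f z - 1‖ ≤ r0) ∧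
      tay f = PowerSeries.map (algebraMap ℚ ℂ) (P n c)
  | 0, c, hc => by
    refine ⟨fun z => ∑ i ∈ Finset.range (c 0), z ^ i, ?_, ?_, ?_⟩
    · intro z _; fun_prop
    · intro z hz
      obtain ⟨m, hm⟩ : ∃ m, c 0 = m + 1 := ⟨c 0 - 1, by have := hc 0; omega⟩
      rw [hm]
      exact inv4 (by simpa using (mem_ball_zero_iff.1 hz).le) m
    · rw [tay_geom, P, map_pInt]
  | n + 1, c, hc => by
    obtain ⟨g, hg1, hg2, hg3⟩ := exists_analytic n (fun j => c (j + 1)) (fun j => hc (j + 1))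
    obtain ⟨m, hm⟩ : ∃ m, c 0 = m + 2 := ⟨c 0 - 2, by have := hc 0; omega⟩
    have h0 : (0:ℂ) ∈ Metric.ball (0:ℂ) R0 := Metric.mem_ball_self R0_pos
    refine ⟨fun z => ∑ i ∈ Finset.range (m + 2), z ^ i - z ^ (m + 1) / g z, ?_, ?_, ?_⟩
    · intro z hz
      have := hg1 z hz
      have hne := ne_zero_of_mem (hg2 z hz)
      exact AnalyticAt.sub (by fun_prop) (AnalyticAt.div (by fun_prop) this hne)
    · intro z hz
      exact inv3 (mem_ball_zero_iff.1 hz).le (hg2 z hz) m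
    · have ga : AnalyticAt ℂ g 0 := hg1 0 h0
      have gne : g 0 ≠ 0 := ne_zero_of_mem (hg2 0 h0)
      have hd : AnalyticAt ℂ (fun z => z ^ (m + 1) / g z) 0 :=
        AnalyticAt.div (by fun_prop) ga gne
      have e1 : (fun z => ∑ i ∈ Finset.range (m + 2), z ^ i - z ^ (m + 1) / g z) =
          (fun z : ℂ => ∑ i ∈ Finset.range (m + 2), z ^ i) - (fun z => z ^ (m + 1) / g z) := rfl
      rw [e1, tay_sub (by fun_prop) hd, tay_geom, P, hm, map_sub, map_mul, map_pow, map_pInt,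
        PowerSeries.map_X]
      congr 1
      have e2 : tay (fun z => z ^ (m + 1) / g z) * tay g = PowerSeries.X ^ (m + 1) := by
        rw [← tay_mul hd ga, ← tay_pow]
        refine tay_congr ?_
        filter_upwards [ga.continuousAt.eventually_ne gne] with z hz
        simp [hz]
      rw [hg3] at e2
      set B := P n (fun j => c (j + 1)) with hB
      have hB0 : PowerSeries.constantCoeff B ≠ 0 := P_ne fun j => hc (j + 1)
      have e3 : PowerSeries.map (algebraMap ℚ ℂ) B * PowerSeries.map (algebraMap ℚ ℂ) (B⁻¹) = 1 := by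
        rw [← map_mul, PowerSeries.mul_inv_cancel B hB0, map_one]
      calc tay (fun z => z ^ (m + 1) / g z)
          = tay (fun z => z ^ (m + 1) / g z) *
            (PowerSeries.map (algebraMap ℚ ℂ) B * PowerSeries.map (algebraMap ℚ ℂ) (B⁻¹)) := by
              rw [e3, mul_one]
        _ = PowerSeries.X ^ (m + 2 - 1) * PowerSeries.map (algebraMap ℚ ℂ) (B⁻¹) := by
              rw [← mul_assoc, e2]; rfl

lemma coeff_bound {c : ℕ → ℕ} (hc : ∀ j, 2 ≤ c j) (n k : ℕ) {r : ℝ} (hr0 : 0 < r) (hr : r < R0) :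
    ‖((PowerSeries.coeff k (P n c) : ℚ) : ℂ)‖ * r ^ k ≤ 1 + r0 := by
  obtain ⟨f, hf1, hf2, hf3⟩ := exists_analytic n c hc
  have hsub : Metric.closedBall (0:ℂ) r ⊆ Metric.ball 0 R0 := Metric.closedBall_subset_ball hr
  have hd : DiffContOnCl ℂ f (Metric.ball 0 r) := by
    refine DifferentiableOn.diffContOnCl ?_
    rw [closure_ball _ hr0.ne']
    exact (hf1.differentiableOn).mono hsub
  have hb := Complex.norm_iteratedDeriv_le_of_forall_mem_sphere_norm_le (C := 1 + r0) k hr0 hd (by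
    intro z hz
    have h1 := hf2 z (hsub (Metric.sphere_subset_closedBall hz))
    calc ‖f z‖ = ‖(f z - 1) + 1‖ := by ring_nf
      _ ≤ ‖f z - 1‖ + ‖(1:ℂ)‖ := norm_add_le _ _
      _ ≤ 1 + r0 := by rw [norm_one]; linarith)
  have h2 : ((PowerSeries.coeff k (P n c) : ℚ) : ℂ) = iteratedDeriv k f 0 / k.factorial := by
    have := congrArg (PowerSeries.coeff k) hf3
    rw [tay, PowerSeries.coeff_mk, PowerSeries.coeff_map] at this
    rw [this]; rfl
  rw [h2, norm_div, Complex.norm_natCast]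
  have hk : (0:ℝ) < k.factorial := by exact_mod_cast k.factorial_pos
  have hrk : 0 < r ^ k := pow_pos hr0 k
  rw [div_mul_eq_mul_div, div_le_iff₀ hk]
  rw [le_div_iff₀ hrk] at hb
  linarith

lemma lim_bound {c : ℕ → ℕ} (hc : ∀ j, 2 ≤ c j) (k : ℕ) {r : ℝ} (hr0 : 0 < r) (hr : r < R0) :
    ‖((PowerSeries.coeff k (lim c) : ℚ) : ℂ)‖ * r ^ k ≤ 1 + r0 := by
  rw [lim, PowerSeries.coeff_mk]
  exact coeff_bound hc k k hr0 hr

/-- Coefficients of `sh`. -/
lemma coeff_sh (L : LaurentSeries ℚ) (n : ℕ) :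
    (sh L).coeff (n : ℤ) = L.coeff ((n + 1 : ℕ) : ℤ) := by
  have h1 : (HahnSeries.single (1 : ℤ) (1 : ℚ) : LaurentSeries ℚ)⁻¹ =
      HahnSeries.single (-1 : ℤ) (1 : ℚ) := by
    refine inv_eq_of_mul_eq_one_right ?_
    rw [HahnSeries.single_mul_single]
    simp
  rw [sh, h1]
  have h2 := HahnSeries.coeff_single_mul_add (r := (1:ℚ)) (x := L - 1) (a := ((n + 1 : ℕ) : ℤ))
    (b := (-1 : ℤ))
  rw [show ((n + 1 : ℕ) : ℤ) + -1 = (n : ℤ) by push_cast; ring] at h2
  rw [h2, one_mul, HahnSeries.coeff_sub, HahnSeries.coeff_one, if_neg (by positivity), sub_zero]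

lemma coeff_sh_iter (m : ℕ) (L : LaurentSeries ℚ) (n : ℕ) :
    (sh^[m] L).coeff (n : ℤ) = L.coeff ((n + m : ℕ) : ℤ) := by
  induction m generalizing n with
  | zero => rfl
  | succ m ih =>
    rw [Function.iterate_succ_apply', coeff_sh, ih]
    congr 2
    ring

lemma radius_bound (x : ℝ) : ENNReal.ofReal R0 ≤ radius (Q x) := by
  refine le_of_forall_lt fun t ht => ?_
  obtain ⟨s, hs1, hs2⟩ := exists_between ht
  have hs3 : s ≠ ⊤ := ne_top_of_lt hs2
  lift s to NNReal using hs3 with r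
  refine lt_of_lt_of_le hs1 ?_
  have hr0 : 0 < (r : ℝ) := by
    have : (0 : ENNReal) < (r : ENNReal) := lt_of_le_of_lt bot_le hs1
    exact_mod_cast this
  have hr : (r : ℝ) < R0 := by
    rw [ENNReal.ofReal, ENNReal.coe_lt_coe] at hs2
    have h := NNReal.coe_lt_coe.2 hs2
    rwa [Real.coe_toNNReal _ R0_pos.le] at h
  have hx := one_le_add_mm x
  refine FormalMultilinearSeries.le_radius_of_bound _ ((1 + r0) / (r : ℝ) ^ mm x) fun n => ?_
  rw [FormalMultilinearSeries.ofScalars_norm, Q, coeff_sh_iter, PowerSeries.coeff_coe,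
    if_neg (not_lt.2 (Int.natCast_nonneg _)), Int.natAbs_natCast]
  have := lim_bound (two_le_dig hx) (n + mm x) hr0 hr
  rw [le_div_iff₀ (pow_pos hr0 _), mul_assoc, ← pow_add]
  exact this

/-- **Every `q`-deformed real number has radius of convergence at least `(3 - √5) / 2`.** -/
theorem result : ∃ Q : ℝ → LaurentSeries ℚ, IsQDeformation Q ∧
    (∀ Q' : ℝ → LaurentSeries ℚ, IsQDeformation Q' → Q' = Q) ∧
    ∀ x : ℝ, ENNReal.ofReal ((3 - Real.sqrt 5) / 2) ≤ radius (Q x) :=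
  ⟨Q, isQDeformation_Q, fun _ h => unique_Q h, radius_bound⟩

end Pool.Agent.Results.MP_b13893_an.RadiusBound
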